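import Pool.Agent.H14.ENR.Stmts4

/-!
# Board enr, row CNU: the nonsplit torus
-/

set_option autoImplicit false

namespace Pool.ENR

open Pool.Agent.H81.ENG Pool.Agent.H55.NEU

theorem cnu_thm (hSWP : SWPStmt) (hPWA : PWAStmt) (hNSQ : NSQStmt) (hGNU : GNUStmt) : CNUStmt := by
  intro F _ _ i m σ a φ h2 hi hfix hsw hm hσ hσ' hφ
  have hpow : 2 * 2 ^ (m - 1) = 2 ^ m := by
    obtain ⟨k, rfl⟩ : ∃ k, m = k + 1 := ⟨m - 1, by omega⟩
    rw [Nat.add_sub_cancel, pow_succ, mul_comm]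
  obtain ⟨c, hc, hσc⟩ := hSWP F σ a φ hsw (2 ^ (m - 1))
  rw [hpow, hφ] at hσc
  have ha0 : (a : F) ≠ 0 := a.ne_zero
  have heeuu : ∀ (d : Fˣ) (x : F), ee d (1 : F ≃+* F) (Pool.Agent.H55.NEU.pr (uu x)) =
      Pool.Agent.H55.NEU.pr (uu (d * x)) := by
    intro d x
    rw [ee_pr, EE_apply]
    congr 1
    unfold uu
    apply mk2_congr <;> simp
  -- `c = -1`
  have hcc : (c : F) * c = 1 := by
    have h3 : σ ^ (2 ^ m) * σ ^ (2 ^ m) = 1 := by
      rw [← pow_add, ← two_mul, ← pow_succ', hσ]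
    rw [hσc] at h3
    have h4 : (ee c (1 : F ≃+* F) * ee c 1) (Pool.Agent.H55.NEU.pr (uu 1)) =
        Pool.Agent.H55.NEU.pr (uu (1 : F)) := by
      rw [h3]
      rfl
    rw [MulAut.mul_apply, heeuu, heeuu, mul_one] at h4
    exact pr_uu_inj h4
  have hc1 : (c : F) = -1 := by
    rcases Pool.Agent.H55.NEU.sq_one hcc with h | h
    · exfalso
      apply hσ'
      rw [hσc]
      have : c = 1 := Units.ext h
      rw [this, ee_one_one]
    · exact h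
  have hprod : ∏ l ∈ Finset.range (2 ^ (m - 1)), (φ ^ (2 * l)) ((a : F) * (φ (a : F))⁻¹) = -1 := by
    rw [← hc, hc1]
  obtain ⟨ν, hν0, hν⟩ := hPWA F i m a φ h2 hi (hfix φ) hm ha0 hprod
  have hνs : ¬ IsSquare ν := hNSQ F m a ν φ h2 hm hφ ha0 hprod hν
  obtain ⟨Γ, hΓ, hΓ2, M, hM1, hM2, hM3⟩ := hGNU F i ν h2 hi hνs
  -- invariance, forward
  have hfwd : ∀ x, x ∈ Γ → σ x ∈ Γ := by
    intro x hx
    obtain ⟨N, hN1, hN2, rfl⟩ := (hΓ x).mp hx
    have hdet : φ (N 1 1) * φ (N 0 0) - (a * φ (N 1 0)) * (((a⁻¹ : Fˣ) : F) * φ (N 0 1)) = 1 := by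
      have h5 : (a : F) * ((a⁻¹ : Fˣ) : F) = 1 := Units.mul_inv a
      have h6 := congrArg φ (sl_det N)
      rw [map_sub, map_mul, map_mul, map_one] at h6
      linear_combination h6 - φ (N 1 0) * φ (N 0 1) * h5
    have h7 := hsw N (mk2 (φ (N 1 1)) (a * φ (N 1 0)) (((a⁻¹ : Fˣ) : F) * φ (N 0 1)) (φ (N 0 0)) hdet)
      rfl rfl rfl rfl
    rw [h7, hΓ]
    refine ⟨_, ?_, ?_, rfl⟩
    · rw [mk2_11, mk2_00, hN1]
    · rw [mk2_01, mk2_10, hN2, map_mul]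
      have h5 : (a : F) * ((a⁻¹ : Fˣ) : F) = 1 := Units.mul_inv a
      linear_combination (-((a⁻¹ : Fˣ) : F) * φ (N 1 0)) * hν - (a * φ (N 1 0)) * h5
  have hfwdn : ∀ (n : ℕ) (x), x ∈ Γ → (σ ^ n) x ∈ Γ := by
    intro n
    induction n with
    | zero => intro x hx; exact hx
    | succ n ih =>
      intro x hx
      rw [pow_succ, MulAut.mul_apply]
      exact ih _ (hfwd x hx)
  have hbwd : ∀ x, σ x ∈ Γ → x ∈ Γ := by
    intro x hx
    have h8 := hfwdn (2 ^ (m + 1) - 1) _ hx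
    rw [← MulAut.mul_apply, ← pow_succ, Nat.sub_add_cancel Nat.one_le_two_pow, hσ] at h8
    exact h8
  have hbotr : (⊥ : Subgroup (PS F)).relIndex Γ = Nat.card Γ := Subgroup.relIndex_bot_left Γ
  refine ⟨Γ, ⊥, fun x => ⟨hfwd x, hbwd x⟩, ?_, bot_le, ?_, ?_, ?_, ?_⟩
  · intro x
    rw [Subgroup.mem_bot, Subgroup.mem_bot]
    constructor
    · rintro rfl
      exact map_one σ
    · intro h
      exact (MulEquiv.map_eq_one_iff σ).mp h
  · intro g _ x hx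
    rw [Subgroup.mem_bot] at hx ⊢
    rw [hx, mul_one, mul_inv_cancel]
  · rw [hbotr]
    exact hΓ2
  · rw [hbotr]
    exact Nat.card_pos.ne'
  · refine ⟨Pool.Agent.H55.NEU.pr M, (hΓ _).mpr ⟨M, hM1, hM2, rfl⟩, ?_⟩
    rw [Subgroup.mem_bot, mul_inv_eq_one, hσc, ee_pr]
    intro h
    obtain ⟨r, hr, hrr⟩ := pr_eq_iff.mp h
    have e00 : M 0 0 = r * M 0 0 := hrr 0 0
    have e10 : M 1 0 = r * (((c⁻¹ : Fˣ) : F) * M 1 0) := hrr 1 0
    have hcinv : ((c⁻¹ : Fˣ) : F) = -1 := by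
      have h9 : (c : F) * ((c⁻¹ : Fˣ) : F) = 1 := Units.mul_inv c
      rw [hc1] at h9
      linear_combination -h9
    rw [hcinv] at e10
    have hr1 : r = -1 := by
      have h10 : (r + 1) * M 1 0 = 0 := by linear_combination e10
      rcases mul_eq_zero.mp h10 with h11 | h11
      · exact eq_neg_of_add_eq_zero_left h11
      · exact absurd h11 hM3
    have hM00 : M 0 0 = 0 := by
      rw [hr1] at e00
      have h12 : (2 : F) * M 0 0 = 0 := by linear_combination e00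
      exact (mul_eq_zero.mp h12).resolve_left h2
    have hd := sl_det M
    rw [hM1, hM00, hM2] at hd
    apply hνs
    refine ⟨i * (M 1 0)⁻¹, ?_⟩
    have h13 : (M 1 0) * (M 1 0)⁻¹ = 1 := mul_inv_cancel₀ hM3
    have h14 : ν * (M 1 0 * M 1 0) = -1 := by linear_combination -hd
    calc ν = ν * ((M 1 0 * (M 1 0)⁻¹) * (M 1 0 * (M 1 0)⁻¹)) := by rw [h13]; ring
      _ = (ν * (M 1 0 * M 1 0)) * ((M 1 0)⁻¹ * (M 1 0)⁻¹) := by ring
      _ = (i * i) * ((M 1 0)⁻¹ * (M 1 0)⁻¹) := by rw [h14, hi]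
      _ = i * (M 1 0)⁻¹ * (i * (M 1 0)⁻¹) := by ring

end Pool.ENR
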