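import Pool.Agent.H29.ENR.Stmts9

/-!
# Board enr, row INN: inner automorphisms of `p`-power order
-/

set_option autoImplicit false

namespace Pool.ENR

open Pool.Agent.H81.ENG

theorem inn_thm (hFRB : FRBStmt) (hSER : SERStmt) : INNStmt := by
  intro T _ _ p N hp s hT hab hs hsN
  have hpp : p.Prime := hp.out
  have hdvd : p ∣ Nat.card T := by
    have h1 : orderOf (MulAut.conj s : MulAut T) ∣ p ^ N := orderOf_dvd_of_pow_eq_one hsN
    obtain ⟨j, -, hj⟩ := (Nat.dvd_prime_pow hpp).mp h1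
    have hj0 : j ≠ 0 := by
      intro h
      rw [h, pow_zero] at hj
      exact hs (orderOf_eq_one_iff.mp hj)
    have h2 : orderOf (MulAut.conj s : MulAut T) ∣ orderOf s := orderOf_map_dvd MulAut.conj s
    have h3 : p ∣ orderOf (MulAut.conj s : MulAut T) := by
      rw [hj]
      exact dvd_pow_self p hj0
    exact h3.trans (h2.trans (orderOf_dvd_natCard s))
  obtain ⟨Q, n, k, hQ, hQn, hnk, hpk, hx⟩ := hFRB T p hT hab hdvd
  obtain ⟨A, D, hAQ, hDA, hcom, hAn, hDn, x, hxA, hxD⟩ := hSER T p Q n k hQ hQn hnk hpk hx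
  have hone : (MulAut.conj s⁻¹ * MulAut.conj s : MulAut T) = 1 := by
    rw [← map_mul, inv_mul_cancel, map_one]
  refine ⟨s⁻¹, A, D, n, k, 1, hQ.to_le hAQ, hDA, hcom, Nat.ModEq.refl 1, ?_, ?_, hAn, hDn, hnk,
    hpk, ?_, x, hxA, ?_⟩
  · intro y
    rw [hone]
    rfl
  · intro y _
    rw [hone, pow_one]
    show y * y⁻¹ ∈ D
    rw [mul_inv_cancel]
    exact D.one_mem
  · rw [hone]
    show n * n⁻¹ ∈ A
    rw [mul_inv_cancel]
    exact A.one_mem
  · rw [Nat.sub_self, pow_zero, pow_one]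
    exact hxD

end Pool.ENR
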