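import Pool.Agent.H29.ENR.Stmts6

/-!
# Board enr, row PB1: adjusting an automorphism of `p`-power order to preserve a Sylow subgroup
-/

set_option autoImplicit false

namespace Pool.ENR

open Pool.Agent.H81.ENG
open scoped Pointwise

theorem pb1_pow {T : Type} [Group T] (α : MulAut T) (g : T) (i : ℕ) :
    ∃ t : T, (MulAut.conj g * α) ^ i = MulAut.conj t * α ^ i := by
  induction i with
  | zero => exact ⟨1, by simp⟩
  | succ i ih =>
    obtain ⟨t, ht⟩ := ih
    refine ⟨g * α t, ?_⟩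
    rw [pow_succ', ht, pow_succ', map_mul]
    ext x
    simp only [MulAut.mul_apply, MulAut.conj_apply, map_mul, map_inv]

theorem pb1_thm : PB1Stmt := by
  intro T _ _ p r N _ α hp hrp hα
  classical
  obtain ⟨R₀⟩ : Nonempty (Sylow r T) := inferInstance
  obtain ⟨g, hg⟩ := MulAction.exists_smul_eq T R₀ (α • R₀)
  set β : MulAut T := MulAut.conj g⁻¹ * α with hβ
  have hβR : β • R₀ = R₀ := by
    rw [hβ, mul_smul, ← hg]
    change MulAut.conj g⁻¹ • (MulAut.conj g • R₀) = R₀
    rw [← mul_smul, ← map_mul, inv_mul_cancel, map_one, one_smul]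
  have hβn : ∀ n : ℕ, (β ^ n) • R₀ = R₀ := by
    intro n
    induction n with
    | zero => rw [pow_zero, one_smul]
    | succ n ih => rw [pow_succ, mul_smul, hβR, ih]
  have hfin : Finite (MulAut T) := inferInstance
  have hpos : 0 < orderOf β := orderOf_pos β
  obtain ⟨s, u, hu, hsu⟩ := Nat.exists_eq_pow_mul_and_not_dvd hpos.ne' p hp.ne_one
  have hcop : Nat.Coprime (p ^ N) u := Nat.Coprime.pow_left N ((Nat.Prime.coprime_iff_not_dvd hp).mpr hu)
  obtain ⟨w, hw1, hw2⟩ := Nat.chineseRemainder hcop 1 0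
  obtain ⟨t, ht⟩ := pb1_pow α g⁻¹ w
  have hαw : α ^ w = α := by
    have h1 : orderOf α ∣ p ^ N := orderOf_dvd_of_pow_eq_one hα
    have h2 : w ≡ 1 [MOD orderOf α] := hw1.of_dvd h1
    have h3 := (pow_eq_pow_iff_modEq (x := α) (n := w) (m := 1)).mpr h2
    rw [h3, pow_one]
  rw [← hβ, hαw] at ht
  refine ⟨t, R₀, s, ?_, ?_⟩
  · intro x
    rw [← ht]
    have h4 : (β ^ w) • (R₀ : Subgroup T) = (R₀ : Subgroup T) := by
      have := congrArg (fun P : Sylow r T => (P : Subgroup T)) (hβn w)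
      exact this
    have h5 := Subgroup.smul_mem_pointwise_smul_iff (a := β ^ w) (S := (R₀ : Subgroup T)) (x := x)
    rw [h4] at h5
    exact h5.symm
  · rw [← ht, ← pow_mul]
    apply orderOf_dvd_iff_pow_eq_one.mp
    rw [hsu]
    have h6 : u ∣ w := (Nat.modEq_zero_iff_dvd).mp hw2
    rw [mul_comm]
    exact mul_dvd_mul h6 dvd_rfl

end Pool.ENR
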