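import Pool.Agent.H36.ENR.Stmts2

/-!
# Board enr, row POW: powers of a field automorphism times a unipotent conjugation
-/

set_option autoImplicit false

namespace Pool.ENR

open Pool.Agent.H81.ENG Pool.Agent.H55.NEU

theorem pow_thm : POWStmt := by
  intro F _ _ φ b i
  have key : ∀ x : F, ee (1 : Fˣ) φ (pr (uu x)) = pr (uu (φ x)) := by
    intro x
    rw [ee_pr, EE_apply]
    congr 1
    unfold uu
    apply mk2_congr <;> simp
  induction i with
  | zero =>
    simp [uu_zero, ee_one_one]
  | succ i ih =>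
    have hS : ∑ l ∈ Finset.range (i + 1), (φ ^ l) b = b + φ (∑ l ∈ Finset.range i, (φ ^ l) b) := by
      rw [Finset.sum_range_succ', map_sum, add_comm]
      congr 1
      apply Finset.sum_congr rfl
      intro l _
      rw [pow_succ']
      rfl
    rw [pow_succ', ih, hS]
    calc MulAut.conj (pr (uu b)) * ee 1 φ *
          (MulAut.conj (pr (uu (∑ l ∈ Finset.range i, (φ ^ l) b))) * ee 1 (φ ^ i))
        = MulAut.conj (pr (uu b)) * (ee 1 φ *
          MulAut.conj (pr (uu (∑ l ∈ Finset.range i, (φ ^ l) b)))) * ee 1 (φ ^ i) := by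
          simp only [mul_assoc]
      _ = MulAut.conj (pr (uu b)) * MulAut.conj (pr (uu (φ (∑ l ∈ Finset.range i, (φ ^ l) b)))) *
          (ee 1 φ * ee 1 (φ ^ i)) := by
          rw [conj_comm, key]
          simp only [mul_assoc]
      _ = MulAut.conj (pr (uu (b + φ (∑ l ∈ Finset.range i, (φ ^ l) b)))) * ee 1 (φ ^ (i + 1)) := by
          rw [← map_mul MulAut.conj, ← map_mul Pool.Agent.H55.NEU.pr, uu_mul, ee_mul, map_one, mul_one, pow_succ']

end Pool.ENR
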