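import Pool.Agent.H29.ENR.Stmts5

/-!
# Board enr, row Q3C: changing the matrix of a conjugation
-/

set_option autoImplicit false

namespace Pool.ENR

open Pool.Agent.H81.ENG Pool.Agent.H55.NEU

theorem q3c_thm : Q3CStmt := by
  intro F _ M M' r σ hM hr hdet hσ
  have hu : IsUnit M.det := isUnit_iff_ne_zero.mpr hM
  have hdA : (r⁻¹ • (M' * M⁻¹)).det = 1 := by
    rw [Matrix.det_smul, Matrix.det_mul, Matrix.det_nonsing_inv, hdet, Fintype.card_fin,
      Ring.inverse_eq_inv]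
    field_simp
  let A : SL2 F := ⟨r⁻¹ • (M' * M⁻¹), hdA⟩
  refine ⟨Pool.Agent.H55.NEU.pr A, ?_⟩
  intro X X' hX
  have hdY : (M * (X : Matrix (Fin 2) (Fin 2) F) * M⁻¹).det = 1 := by
    rw [Matrix.det_mul, Matrix.det_mul, Matrix.det_nonsing_inv, Ring.inverse_eq_inv,
      Matrix.SpecialLinearGroup.det_coe, mul_one, mul_inv_cancel₀ hM]
  let Y : SL2 F := ⟨M * (X : Matrix (Fin 2) (Fin 2) F) * M⁻¹, hdY⟩
  have hY : σ (Pool.Agent.H55.NEU.pr X) = Pool.Agent.H55.NEU.pr Y := by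
    apply hσ
    show M * (X : Matrix (Fin 2) (Fin 2) F) * M⁻¹ * M = M * (X : Matrix (Fin 2) (Fin 2) F)
    rw [Matrix.mul_assoc, Matrix.nonsing_inv_mul _ hu, Matrix.mul_one]
  have hXA : X' * A = A * Y := by
    apply Subtype.ext
    show (X' : Matrix (Fin 2) (Fin 2) F) * (r⁻¹ • (M' * M⁻¹)) =
      (r⁻¹ • (M' * M⁻¹)) * (M * (X : Matrix (Fin 2) (Fin 2) F) * M⁻¹)
    rw [Matrix.mul_smul, Matrix.smul_mul, ← Matrix.mul_assoc, hX]
    congr 1
    calc M' * (X : Matrix (Fin 2) (Fin 2) F) * M⁻¹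
        = M' * (M⁻¹ * M) * (X : Matrix (Fin 2) (Fin 2) F) * M⁻¹ := by
          rw [Matrix.nonsing_inv_mul _ hu, Matrix.mul_one]
      _ = M' * M⁻¹ * (M * (X : Matrix (Fin 2) (Fin 2) F) * M⁻¹) := by
          simp only [Matrix.mul_assoc]
  rw [MulAut.mul_apply, hY, MulAut.conj_apply, ← map_mul, ← hXA, map_mul, mul_assoc,
    mul_inv_cancel, mul_one]

end Pool.ENR
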